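import Pool.Agent.BEL.StmtsU

set_option autoImplicit false

/-!
Squad BEL, row UPR: product rule for integrated equations.
-/

namespace Pool.Agent.BEL.H6

open Set Filter Topology MeasureTheory

theorem upr : UprStmt := by
  intro x y x' y' s t hst hx' hy' hx hy
  set X : ℝ → ℝ := fun r => ∫ q in s..r, x' q with hX
  set Y : ℝ → ℝ := fun r => ∫ q in s..r, y' q with hY
  have hXac : AbsolutelyContinuousOnInterval X s t :=
    hx'.absolutelyContinuousOnInterval_intervalIntegral (c := s) (by simp)
  have hYac : AbsolutelyContinuousOnInterval Y s t :=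
    hy'.absolutelyContinuousOnInterval_intervalIntegral (c := s) (by simp)
  have hXs : X s = 0 := intervalIntegral.integral_same
  have hYs : Y s = 0 := intervalIntegral.integral_same
  have key : ∫ r in s..t, (x' r * Y r + X r * y' r) = X t * Y t := by
    have h := hXac.integral_deriv_mul_eq_sub hYac
    rw [hXs, zero_mul, sub_zero] at h
    rw [← h]
    apply intervalIntegral.integral_congr_ae
    filter_upwards [hx'.ae_hasDerivAt_integral, hy'.ae_hasDerivAt_integral] with r h1 h2 hr
    have hr' : r ∈ uIcc s t := uIoc_subset_uIcc hr
    have e1 : deriv X r = x' r := (h1 hr' s (by simp)).deriv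
    have e2 : deriv Y r = y' r := (h2 hr' s (by simp)).deriv
    rw [e1, e2]
  have i1 : IntervalIntegrable (fun r => x' r * Y r + X r * y' r) volume s t :=
    (hx'.mul_continuousOn hYac.continuousOn).add (hy'.continuousOn_mul hXac.continuousOn)
  have i2 : IntervalIntegrable (fun r => y s * x' r + x s * y' r) volume s t :=
    (hx'.const_mul (y s)).add (hy'.const_mul (x s))
  have e3 : ∫ r in s..t, (x' r * y r + x r * y' r) =
      ∫ r in s..t, ((x' r * Y r + X r * y' r) + (y s * x' r + x s * y' r)) := by
    apply intervalIntegral.integral_congr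
    intro r hr
    rw [uIcc_of_le hst] at hr
    show x' r * y r + x r * y' r = (x' r * Y r + X r * y' r) + (y s * x' r + x s * y' r)
    rw [hx r hr.1 hr.2, hy r hr.1 hr.2]
    ring
  rw [e3, intervalIntegral.integral_add i1 i2, key,
    intervalIntegral.integral_add (hx'.const_mul (y s)) (hy'.const_mul (x s)),
    intervalIntegral.integral_const_mul, intervalIntegral.integral_const_mul,
    hx t hst le_rfl, hy t hst le_rfl]
  ring

end Pool.Agent.BEL.H6
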