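import Pool.Agent.BEL.StmtsU

set_option autoImplicit false

/-!
Squad BEL, row UHO: the `L²` norm and the dissipation.
-/

namespace Pool.Agent.BEL.H6

open Set Filter Topology MeasureTheory
open scoped InnerProductSpace ENNReal

/-- the `L²` norm against the `L^(al+2)` norm -/
theorem norm_sq_le {X : Type} [MeasurableSpace X] (μ : Measure X) [IsFiniteMeasure μ] (al : ℝ)
    (hal : 0 < al) (f : Lp ℝ 2 μ) (h : ∫⁻ x, ENNReal.ofReal (|f x| ^ (al + 2)) ∂μ < ⊤) :
    ‖f‖ ^ 2 ≤ (μ univ).toReal ^ (al / (al + 2)) *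
      (∫⁻ x, ENNReal.ofReal (|f x| ^ (al + 2)) ∂μ).toReal ^ (2 / (al + 2)) := by
  have ha2 : 0 < al + 2 := by linarith
  have hp : (2 : ℝ≥0∞) ≤ ENNReal.ofReal (al + 2) := by
    have h2 : (2 : ℝ≥0∞) = ENNReal.ofReal 2 := by simp
    rw [h2]
    exact ENNReal.ofReal_le_ofReal (by linarith)
  have h1 := eLpNorm_le_eLpNorm_mul_rpow_measure_univ hp (Lp.aestronglyMeasurable f)
  have h2 : eLpNorm f (ENNReal.ofReal (al + 2)) μ =
      (∫⁻ x, ENNReal.ofReal (|f x| ^ (al + 2)) ∂μ) ^ (1 / (al + 2)) := by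
    rw [eLpNorm_eq_lintegral_rpow_enorm_toReal (by simpa using ha2) ENNReal.ofReal_ne_top,
      ENNReal.toReal_ofReal ha2.le]
    congr 1
    refine lintegral_congr fun x => ?_
    rw [Real.enorm_eq_ofReal_abs, ENNReal.ofReal_rpow_of_nonneg (abs_nonneg _) ha2.le]
  rw [h2, ENNReal.toReal_ofReal ha2.le] at h1
  set A := ∫⁻ x, ENNReal.ofReal (|f x| ^ (al + 2)) ∂μ with hA
  have he : (0 : ℝ) ≤ 1 / (2 : ℝ≥0∞).toReal - 1 / (al + 2) := by
    rw [ENNReal.toReal_ofNat, sub_nonneg]
    exact one_div_le_one_div_of_le (by norm_num) (by linarith)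
  have h3 : ‖f‖ ≤ A.toReal ^ (1 / (al + 2)) * (μ univ).toReal ^ (1 / (2 : ℝ) - 1 / (al + 2)) := by
    rw [Lp.norm_def]
    have h4 := ENNReal.toReal_mono (ENNReal.mul_ne_top
      (ENNReal.rpow_ne_top_of_nonneg (by positivity) h.ne)
      (ENNReal.rpow_ne_top_of_nonneg he (measure_ne_top μ univ))) h1
    rw [ENNReal.toReal_mul, ← ENNReal.toReal_rpow, ← ENNReal.toReal_rpow,
      ENNReal.toReal_ofNat] at h4
    exact h4
  have h5 : ‖f‖ ^ 2 ≤ (A.toReal ^ (1 / (al + 2)) *
      (μ univ).toReal ^ (1 / (2 : ℝ) - 1 / (al + 2))) ^ 2 :=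
    pow_le_pow_left₀ (norm_nonneg _) h3 2
  refine h5.trans (le_of_eq ?_)
  have e1 : (A.toReal ^ (1 / (al + 2))) ^ 2 = A.toReal ^ (2 / (al + 2)) := by
    rw [← Real.rpow_natCast, ← Real.rpow_mul ENNReal.toReal_nonneg]
    congr 1
    push_cast
    ring
  have e2 : ((μ univ).toReal ^ (1 / (2 : ℝ) - 1 / (al + 2))) ^ 2 =
      (μ univ).toReal ^ (al / (al + 2)) := by
    rw [← Real.rpow_natCast, ← Real.rpow_mul ENNReal.toReal_nonneg]
    congr 1
    push_cast
    field_simp
    ring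
  rw [mul_pow, e1, e2, mul_comm]

/-- the tangent of the concave function `x ^ θ` -/
theorem tangent {θ a D : ℝ} (h0 : 0 ≤ θ) (h1 : θ ≤ 1) (ha : 0 < a) (hD : 0 ≤ D) :
    D ^ θ ≤ a ^ θ * (1 + θ * (D / a - 1)) := by
  have hx : 0 ≤ D / a := div_nonneg hD ha.le
  have h2 := rpow_one_add_le_one_add_mul_self (s := D / a - 1) (by linarith) h0 h1
  have h3 : 1 + (D / a - 1) = D / a := by ring
  rw [h3] at h2
  have h4 : D = a * (D / a) := by field_simp
  calc D ^ θ = (a * (D / a)) ^ θ := by rw [← h4]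
    _ = a ^ θ * (D / a) ^ θ := Real.mul_rpow ha.le hx
    _ ≤ _ := mul_le_mul_of_nonneg_left h2 (Real.rpow_nonneg ha.le _)

theorem uho (hU : UenStmt) : UhoStmt := by
  intro X _ μ a al b om ha hal hI
  have hfin := hI.fin
  set m : ℝ := (μ univ).toReal ^ (al / (al + 2)) with hm
  have hm0 : 0 ≤ m := Real.rpow_nonneg ENNReal.toReal_nonneg _
  refine ⟨m, hm0, ?_⟩
  intro z1 z2 hz s t hs hst
  obtain ⟨u1, u2⟩ := hU X μ a al b om ha hal hI z1 z2 hz
  have hint := (u1 s t hs hst).1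
  set D : ℝ → ℝ := Dis μ (al + 2) z2 with hD
  have hD0 : ∀ r, 0 ≤ D r := fun r => ENNReal.toReal_nonneg
  set θ : ℝ := 2 / (al + 2) with hθ
  have hal2 : 0 < al + 2 := by linarith
  have hθ0 : 0 < θ := by positivity
  have hθ1 : θ ≤ 1 := by
    rw [hθ, div_le_one hal2]
    linarith
  have hθ2 : al / (al + 2) = 1 - θ := by
    rw [hθ]
    field_simp
    ring
  rcases hst.eq_or_lt with rfl | hlt
  · rw [intervalIntegral.integral_same, intervalIntegral.integral_same]
    positivity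
  have hI0 : 0 ≤ ∫ r in s..t, D r := intervalIntegral.integral_nonneg hst fun r _ => hD0 r
  set I : ℝ := ∫ r in s..t, D r with hIdef
  have hst' : 0 < t - s := sub_pos.2 hlt
  -- pointwise
  have hae : ∀ᵐ r ∂(volume.restrict (Icc s t)), ‖z2 r‖ ^ 2 ≤ m * D r ^ θ := by
    have h1 : ∀ᵐ r ∂(volume.restrict (Icc s t)), DisE μ (al + 2) z2 r < ⊤ :=
      ae_restrict_of_ae_restrict_of_subset (fun r hr => hs.trans hr.1) u2
    filter_upwards [h1] with r hr
    exact norm_sq_le μ al hal (z2 r) hr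
  have hc : ContinuousOn (fun r => ‖z2 r‖ ^ 2) (uIcc s t) := by
    rw [uIcc_of_le hst]
    exact ((hz.c2.mono (fun r hr => hs.trans hr.1)).norm).pow 2
  have hbound : ∀ c : ℝ, I / (t - s) < c → ∫ r in s..t, ‖z2 r‖ ^ 2 ≤ m * ((t - s) * c ^ θ) := by
    intro c hc1
    have hc0 : 0 < c := (div_nonneg hI0 hst'.le).trans_lt hc1
    have i1 : IntervalIntegrable (fun r => m * (c ^ θ * (1 + θ * (D r / c - 1)))) volume s t := by
      refine IntervalIntegrable.const_mul (IntervalIntegrable.const_mul ?_ _) _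
      refine (intervalIntegrable_const).add (IntervalIntegrable.const_mul ?_ _)
      exact (hint.div_const c).sub intervalIntegrable_const
    have h1 : ∫ r in s..t, ‖z2 r‖ ^ 2 ≤ ∫ r in s..t, m * (c ^ θ * (1 + θ * (D r / c - 1))) := by
      refine intervalIntegral.integral_mono_ae_restrict hst hc.intervalIntegrable i1 ?_
      filter_upwards [hae] with r hr
      exact hr.trans (mul_le_mul_of_nonneg_left (tangent hθ0.le hθ1 hc0 (hD0 r)) hm0)
    have h2 : ∫ r in s..t, m * (c ^ θ * (1 + θ * (D r / c - 1))) =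
        m * (c ^ θ * ((t - s) + θ * (I / c - (t - s)))) := by
      rw [intervalIntegral.integral_const_mul, intervalIntegral.integral_const_mul,
        intervalIntegral.integral_add intervalIntegrable_const
          (((hint.div_const c).sub intervalIntegrable_const).const_mul θ),
        intervalIntegral.integral_const_mul,
        intervalIntegral.integral_sub (hint.div_const c) intervalIntegrable_const,
        intervalIntegral.integral_div, intervalIntegral.integral_const, ← hIdef,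
        smul_eq_mul, mul_one]
    refine h1.trans (h2.le.trans ?_)
    refine mul_le_mul_of_nonneg_left ?_ hm0
    have h3 : I / c - (t - s) ≤ 0 := by
      rw [sub_nonpos, div_le_iff₀ hc0]
      rw [div_lt_iff₀ hst'] at hc1
      linarith
    have h4 : (t - s) + θ * (I / c - (t - s)) ≤ t - s := by
      have := mul_nonpos_of_nonneg_of_nonpos hθ0.le h3
      linarith
    have h5 := mul_le_mul_of_nonneg_left h4 (Real.rpow_nonneg hc0.le θ)
    linarith [mul_comm (c ^ θ) (t - s)]
  have hlim : ∫ r in s..t, ‖z2 r‖ ^ 2 ≤ m * ((t - s) * (I / (t - s)) ^ θ) := by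
    have ht : Tendsto (fun c : ℝ => m * ((t - s) * c ^ θ)) (𝓝[>] (I / (t - s)))
        (𝓝 (m * ((t - s) * (I / (t - s)) ^ θ))) := by
      refine Tendsto.mono_left ?_ nhdsWithin_le_nhds
      exact ((Real.continuousAt_rpow_const _ _ (Or.inr hθ0.le)).const_mul (t - s)).const_mul m
    refine ge_of_tendsto ht ?_
    filter_upwards [self_mem_nhdsWithin] with c hc1
    exact hbound c hc1
  refine hlim.trans (le_of_eq ?_)
  rw [hθ2, Real.div_rpow hI0 hst'.le, Real.rpow_sub hst', Real.rpow_one]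
  ring

end Pool.Agent.BEL.H6
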